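import Pool.Agent.Helper58.SU.StP
import Pool.Agent.Helper68.MR.Sh

/-!
# Project SU (MP_b454d1_nt), module SHP: sharp windows with a phase are averages of Gaussian windows
-/

set_option autoImplicit false

namespace Pool.Agent.Helper19.SU

open Finset MeasureTheory
open Pool.Agent.Helper48.BK (ex)
open Pool.Agent.Helper58.SU
open Pool.Agent.Helper68.MR.Shx

/-- one term of the error -/
private theorem term_SHP {X m : ℕ} {T y : ℝ} (hX : 1 ≤ X) (hT : 1 ≤ T) (hm : 1 ≤ m)
    (hm3 : m ≤ 3 * X) (hy : (X : ℝ) / 2 ≤ y) (hy3 : y ≤ 3 * X) :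
    (1 / (m : ℝ)) * Real.exp (-(T * |Real.log m - Real.log y|)) ≤
      4 / (X * T) + (4 / X) * Real.exp (-(T / (3 * X) * |(m : ℝ) - y|)) := by
  have hX0 : (0 : ℝ) < X := by exact_mod_cast hX
  have hm0 : (0 : ℝ) < m := by exact_mod_cast hm
  have hT0 : 0 < T := by linarith
  have hy0 : 0 < y := by linarith [half_pos hX0]
  have hm3' : (m : ℝ) ≤ 3 * X := by exact_mod_cast hm3
  by_cases hc : (m : ℝ) ≤ y / 2
  · have hle : (m : ℝ) ≤ y := by linarith
    have hlog : Real.log m ≤ Real.log y := Real.log_le_log hm0 hle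
    have hl2 : Real.log 2 ≤ Real.log y - Real.log m := by
      rw [← Real.log_div hy0.ne' hm0.ne']
      apply Real.log_le_log (by norm_num)
      rw [le_div_iff₀ hm0]; linarith
    have h069 : 0.69 ≤ Real.log 2 := by linarith [Real.log_two_gt_d9]
    have e1 : |Real.log m - Real.log y| = Real.log y - Real.log m := by
      rw [abs_sub_comm, abs_of_nonneg (by linarith)]
    have e2 : Real.exp (-(T * |Real.log m - Real.log y|)) =
        (m / y) * Real.exp (-((T - 1) * (Real.log y - Real.log m))) := by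
      rw [e1]
      have : (m : ℝ) / y = Real.exp (Real.log m - Real.log y) := by
        rw [Real.exp_sub, Real.exp_log hm0, Real.exp_log hy0]
      rw [this, ← Real.exp_add]
      congr 1; ring
    have h3 : Real.exp (-((T - 1) * (Real.log y - Real.log m))) ≤ 2 / T := by
      have h4 : (T - 1) * 0.69 ≤ (T - 1) * (Real.log y - Real.log m) :=
        mul_le_mul_of_nonneg_left (by linarith) (by linarith)
      have h5 := Real.add_one_le_exp ((T - 1) * (Real.log y - Real.log m))
      have h6 : T / 2 ≤ Real.exp ((T - 1) * (Real.log y - Real.log m)) := by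
        have : T / 2 ≤ (T - 1) * 0.69 + 1 := by linarith
        linarith
      rw [Real.exp_neg, inv_le_comm₀ (Real.exp_pos _) (by positivity), inv_div]
      exact h6
    have h7 : (1 / (m : ℝ)) * Real.exp (-(T * |Real.log m - Real.log y|)) ≤ 4 / (X * T) := by
      rw [e2]
      calc (1 / (m : ℝ)) * (m / y * Real.exp (-((T - 1) * (Real.log y - Real.log m))))
          = (1 / y) * Real.exp (-((T - 1) * (Real.log y - Real.log m))) := by
            field_simp
        _ ≤ (2 / X) * (2 / T) := by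
            apply mul_le_mul _ h3 (Real.exp_pos _).le (by positivity)
            rw [div_le_div_iff₀ hy0 hX0]; linarith
        _ = 4 / (X * T) := by field_simp; ring
    have h8 : 0 ≤ (4 / (X : ℝ)) * Real.exp (-(T / (3 * X) * |(m : ℝ) - y|)) := by positivity
    linarith
  · rw [not_le] at hc
    have h1 : 1 / (m : ℝ) ≤ 4 / X := by
      rw [div_le_div_iff₀ hm0 hX0]; linarith
    have h2 := log_diff hm0 hy0 hm3' hy3
    have h3 : Real.exp (-(T * |Real.log m - Real.log y|)) ≤
        Real.exp (-(T / (3 * X) * |(m : ℝ) - y|)) := by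
      rw [Real.exp_le_exp]
      have h4 := mul_le_mul_of_nonneg_left h2 hT0.le
      have h5 : T * (|(m : ℝ) - y| / (3 * X)) = T / (3 * X) * |(m : ℝ) - y| := by ring
      rw [h5] at h4
      linarith
    have h6 : (1 / (m : ℝ)) * Real.exp (-(T * |Real.log m - Real.log y|)) ≤
        (4 / X) * Real.exp (-(T / (3 * X) * |(m : ℝ) - y|)) :=
      mul_le_mul h1 h3 (Real.exp_pos _).le (by positivity)
    have h8 : 0 ≤ 4 / ((X : ℝ) * T) := by positivity
    linarith

private theorem tail_SHP {X : ℕ} {T y : ℝ} (hX : 1 ≤ X) (hT : 1 ≤ T) (hTX : T ≤ X)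
    (hy : (X : ℝ) / 2 ≤ y) (hy3 : y ≤ 3 * X) :
    ∑ m ∈ Icc 1 (3 * X), (1 / (m : ℝ)) * (2 * Real.exp (-(T * |Real.log m - Real.log y|))) ≤
      88 / T := by
  have hX0 : (0 : ℝ) < X := by exact_mod_cast hX
  have hT0 : 0 < T := by linarith
  have hy0 : 0 < y := by linarith [half_pos hX0]
  have hθ : 0 < T / (3 * X) := by positivity
  calc ∑ m ∈ Icc 1 (3 * X), (1 / (m : ℝ)) * (2 * Real.exp (-(T * |Real.log m - Real.log y|)))
      ≤ ∑ m ∈ Icc 1 (3 * X), (8 / (X * T) + (8 / X) *
          Real.exp (-(T / (3 * X) * |(m : ℝ) - y|))) := by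
        refine Finset.sum_le_sum fun m hm => ?_
        have h := term_SHP hX hT (Finset.mem_Icc.1 hm).1 (Finset.mem_Icc.1 hm).2 hy hy3
        have e1 : (8 : ℝ) / (X * T) = 2 * (4 / (X * T)) := by ring
        have e2 : (8 : ℝ) / X = 2 * (4 / X) := by ring
        rw [e1, e2]
        linarith
    _ = 3 * X * (8 / (X * T)) + (8 / X) *
          ∑ m ∈ Icc 1 (3 * X), Real.exp (-(T / (3 * X) * |(m : ℝ) - y|)) := by
        rw [Finset.sum_add_distrib, Finset.mul_sum, Finset.sum_const, Nat.card_Icc,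
          nsmul_eq_mul]
        push_cast
        simp
    _ ≤ 3 * X * (8 / (X * T)) + (8 / X) * (2 * (1 + 1 / (T / (3 * X)))) := by
        gcongr
        exact geo _ _ hθ hy0.le _
    _ = 72 / T + 16 / X := by field_simp; ring
    _ ≤ 88 / T := by
        have h1 : 16 / (X : ℝ) ≤ 16 / T := div_le_div_of_nonneg_left (by norm_num) hT0 hTX
        have e : (88 : ℝ) / T = 72 / T + 16 / T := by ring
        rw [e]; linarith

private theorem norm_ex_SHP (a : ℝ) : ‖ex a‖ = 1 := by
  unfold ex
  have h : (2 * Real.pi * a * Complex.I : ℂ) = ((2 * Real.pi * a : ℝ) : ℂ) * Complex.I := by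
    push_cast; ring
  rw [h, Complex.norm_exp_ofReal_mul_I]

private theorem ex_sub_SHP (a b : ℝ) : ‖ex a - ex b‖ ≤ 2 * Real.pi * |a - b| := by
  have h1 : ex a = ex b * Complex.exp (Complex.I * ((2 * Real.pi * (a - b) : ℝ) : ℂ)) := by
    unfold ex
    rw [← Complex.exp_add]
    congr 1
    push_cast
    ring
  have h2 : ex a - ex b =
      ex b * (Complex.exp (Complex.I * ((2 * Real.pi * (a - b) : ℝ) : ℂ)) - 1) := by
    rw [h1]; ring
  rw [h2, norm_mul, norm_ex_SHP, one_mul]
  refine (Real.norm_exp_I_mul_ofReal_sub_one_le).trans ?_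
  rw [Real.norm_eq_abs, abs_mul, abs_of_pos (by positivity : (0 : ℝ) < 2 * Real.pi)]

private theorem ex_cont_SHP (β : ℝ) : Continuous (fun v : ℝ => ex (β * Real.exp v)) := by
  unfold ex
  fun_prop

/-- `x exp (-x²/2) ≤ 8 exp (-x)` -/
private theorem gau_SHP {x : ℝ} : x * Real.exp (-(x ^ 2 / 2)) ≤ 8 * Real.exp (-x) := by
  have h1 : x ≤ Real.exp x := by
    have := Real.add_one_le_exp x
    linarith
  have h2 : x * Real.exp (-(x ^ 2 / 2)) ≤ Real.exp x * Real.exp (-(x ^ 2 / 2)) :=
    mul_le_mul_of_nonneg_right h1 (Real.exp_pos _).le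
  have h3 : Real.exp x * Real.exp (-(x ^ 2 / 2)) ≤ Real.exp 2 * Real.exp (-x) := by
    rw [← Real.exp_add, ← Real.exp_add, Real.exp_le_exp]
    nlinarith [sq_nonneg (x - 2)]
  have h4 : Real.exp 2 ≤ 8 := by
    have h5 : Real.exp 2 = Real.exp 1 * Real.exp 1 := by
      rw [← Real.exp_add]; norm_num
    have h6 := Real.exp_one_lt_d9
    rw [h5]
    nlinarith [Real.exp_pos 1]
  have h5 : Real.exp 2 * Real.exp (-x) ≤ 8 * Real.exp (-x) :=
    mul_le_mul_of_nonneg_right h4 (Real.exp_pos _).le
  linarith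

private theorem kern_SHP {R s : ℝ} (hR : 0 < R) :
    |s| * (R * Real.exp (-(R ^ 2 * s ^ 2 / 2))) ≤ 8 * Real.exp (-(R * |s|)) := by
  have h := gau_SHP (x := R * |s|)
  have e1 : (R * |s|) ^ 2 = R ^ 2 * s ^ 2 := by rw [mul_pow, sq_abs]
  rw [e1] at h
  calc |s| * (R * Real.exp (-(R ^ 2 * s ^ 2 / 2)))
      = R * |s| * Real.exp (-(R ^ 2 * s ^ 2 / 2)) := by ring
    _ ≤ _ := h

theorem hSHP : StShp := by
  refine ⟨20000, by norm_num, fun g X y h G R β hX hhX hR hRX hG hg hy1 hy2 => ?_⟩
  have hX0 : (0 : ℝ) < X := by exact_mod_cast hX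
  have hR0 : 0 < R := by linarith
  have hy0 : (0 : ℝ) < y := by linarith [half_pos hX0]
  have hyh : (y : ℝ) + h ≤ 3 * X := by exact_mod_cast hy2
  rcases Nat.eq_zero_or_pos h with rfl | hh
  · have e : Ioc y (y + 0) = ∅ := by simp
    rw [e, Finset.sum_empty]
    push_cast
    rw [add_zero, intervalIntegral.integral_same, mul_zero, sub_zero, norm_zero]
    positivity
  have hh0 : (0 : ℝ) < h := by exact_mod_cast hh
  set a := Real.log y with ha
  set b := Real.log ((y : ℝ) + h) with hb
  have hab : a < b := Real.log_lt_log hy0 (by linarith)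
  have hba : b - a ≤ 2 * h / X := by
    have h1 : b - a = Real.log (((y : ℝ) + h) / y) := by
      rw [hb, ha, Real.log_div (by positivity) hy0.ne']
    have h2 : Real.log (((y : ℝ) + h) / y) ≤ ((y : ℝ) + h) / y - 1 :=
      Real.log_le_sub_one_of_pos (by positivity)
    have h3 : ((y : ℝ) + h) / y - 1 = h / y := by field_simp; ring
    have h4 : (h : ℝ) / y ≤ 2 * h / X := by
      rw [div_le_div_iff₀ hy0 hX0]
      nlinarith
    linarith
  set F := Icc 1 (3 * X) with hF
  let k : ℕ → ℝ → ℝ := fun m v => R * Real.exp (-(R ^ 2 * (v - Real.log m) ^ 2 / 2))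
  have hkc : ∀ m, Continuous (k m) := by
    intro m
    simp only [k]
    fun_prop
  let K : ℕ → ℝ := fun m => ∫ v in a..b, k m v
  let J : ℕ → ℂ := fun m => ∫ v in a..b, ex (β * Real.exp v) * (k m v : ℂ)
  let ind : ℕ → ℝ := fun m => if a < Real.log m ∧ Real.log m ≤ b then 1 else 0
  have hW : (∫ v in a..b, ex (β * Real.exp v) * ∑ m ∈ F, ((g m : ℝ) : ℂ) / m *
        ((R * Real.exp (-(R ^ 2 * (v - Real.log m) ^ 2 / 2)) : ℝ) : ℂ)) =
      ∑ m ∈ F, ((g m : ℝ) : ℂ) / m * J m := by
    have e1 : (fun v : ℝ => ex (β * Real.exp v) * ∑ m ∈ F, ((g m : ℝ) : ℂ) / m *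
        ((R * Real.exp (-(R ^ 2 * (v - Real.log m) ^ 2 / 2)) : ℝ) : ℂ)) =
        fun v => ∑ m ∈ F, ((g m : ℝ) : ℂ) / m * (ex (β * Real.exp v) * (k m v : ℂ)) := by
      funext v
      rw [Finset.mul_sum]
      refine Finset.sum_congr rfl fun m _ => ?_
      simp only [k]
      ring
    rw [e1, intervalIntegral.integral_finsetSum]
    · refine Finset.sum_congr rfl fun m _ => ?_
      rw [intervalIntegral.integral_const_mul]
    · intro m _
      apply Continuous.intervalIntegrable
      exact continuous_const.mul ((ex_cont_SHP β).mul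
        (Complex.continuous_ofReal.comp (hkc m)))
  have hS : ∑ m ∈ Ioc y (y + h), ((g m / m : ℝ) : ℂ) * ex (m * β) =
      ∑ m ∈ F, ((g m : ℝ) : ℂ) / m * ((ind m : ℂ) * ex (m * β)) := by
    have e1 : Ioc y (y + h) = F.filter (fun m : ℕ => a < Real.log m ∧ Real.log m ≤ b) := by
      ext m
      rw [Finset.mem_filter, hF, Finset.mem_Icc, Finset.mem_Ioc]
      constructor
      · rintro ⟨m1, m2⟩
        have m3 : 1 ≤ m := by omega
        have m0 : (0 : ℝ) < m := by exact_mod_cast m3
        refine ⟨⟨m3, by omega⟩, ?_, ?_⟩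
        · exact Real.log_lt_log hy0 (by exact_mod_cast m1)
        · exact Real.log_le_log m0 (by exact_mod_cast m2)
      · rintro ⟨⟨m3, _⟩, m4, m5⟩
        have m0 : (0 : ℝ) < m := by exact_mod_cast m3
        have m6 : (y : ℝ) < m := (Real.log_lt_log_iff hy0 m0).1 m4
        have m7 : (m : ℝ) ≤ (y : ℝ) + h := (Real.log_le_log_iff m0 (by linarith)).1 m5
        exact ⟨by exact_mod_cast m6, by exact_mod_cast m7⟩
    rw [e1, Finset.sum_filter]
    refine Finset.sum_congr rfl fun m _ => ?_
    by_cases hm : a < Real.log m ∧ Real.log m ≤ b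
    · simp only [ind]
      rw [if_pos hm, if_pos hm]
      push_cast
      ring
    · simp only [ind]
      rw [if_neg hm, if_neg hm]
      push_cast
      ring
  rw [hW, hS]
  set s : ℝ := Real.sqrt (2 * Real.pi) with hs
  have hs1 : 1 ≤ s := by
    rw [hs, Real.one_le_sqrt]
    have := Real.pi_gt_three
    linarith
  have hs0 : (s : ℂ) ≠ 0 := by
    have : s ≠ 0 := by linarith
    exact_mod_cast this
  set D : ℂ := ∑ m ∈ F, ((g m : ℝ) : ℂ) / m * ((ind m : ℂ) * ex (m * β)) -
    ((1 / s : ℝ) : ℂ) * ∑ m ∈ F, ((g m : ℝ) : ℂ) / m * J m with hD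
  have hdec : (s : ℂ) * D =
      ∑ m ∈ F, ((g m : ℝ) : ℂ) / m * (((s * ind m - K m : ℝ) : ℂ) * ex (m * β)) +
      ∑ m ∈ F, ((g m : ℝ) : ℂ) / m * ((K m : ℂ) * ex (m * β) - J m) := by
    rw [hD, mul_sub]
    have e1 : (s : ℂ) * (((1 / s : ℝ) : ℂ) * ∑ m ∈ F, ((g m : ℝ) : ℂ) / m * J m) =
        ∑ m ∈ F, ((g m : ℝ) : ℂ) / m * J m := by
      rw [← mul_assoc]
      have : (s : ℂ) * ((1 / s : ℝ) : ℂ) = 1 := by
        push_cast
        field_simp
      rw [this, one_mul]
    rw [e1, Finset.mul_sum, ← Finset.sum_sub_distrib, ← Finset.sum_add_distrib]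
    refine Finset.sum_congr rfl fun m _ => ?_
    push_cast
    ring
  have h1 : ‖D‖ ≤ ‖(s : ℂ) * D‖ := by
    rw [norm_mul, Complex.norm_real, Real.norm_of_nonneg (by linarith)]
    exact le_mul_of_one_le_left (norm_nonneg _) hs1
  refine h1.trans ?_
  rw [hdec]
  refine (norm_add_le _ _).trans ?_
  have h3 : ‖∑ m ∈ F, ((g m : ℝ) : ℂ) / m * (((s * ind m - K m : ℝ) : ℂ) * ex (m * β))‖ ≤
      176 * G / R := by
    refine (norm_sum_le _ _).trans ?_
    calc ∑ n ∈ F, ‖((g n : ℝ) : ℂ) / n * (((s * ind n - K n : ℝ) : ℂ) * ex (n * β))‖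
        ≤ ∑ n ∈ F, G * ((1 / (n : ℝ)) * (2 * Real.exp (-(R * |Real.log n - a|))) +
            (1 / (n : ℝ)) * (2 * Real.exp (-(R * |Real.log n - b|)))) := by
          refine Finset.sum_le_sum fun n hn => ?_
          have hn1 := (Finset.mem_Icc.1 hn).1
          have hn0 : (0:ℝ) < n := by exact_mod_cast hn1
          rw [norm_mul, norm_div, norm_mul, norm_ex_SHP, mul_one, Complex.norm_real,
            Complex.norm_real, Complex.norm_natCast]
          have e1 : ‖g n‖ / (n : ℝ) ≤ G / n := div_le_div_of_nonneg_right (hg n) hn0.le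
          have e3 := G_bound (c := Real.log n) hR0 hab
          calc ‖g n‖ / (n : ℝ) * ‖s * ind n - K n‖ ≤ G / n * (2 * Real.exp (-(R * |Real.log n - a|))
                + 2 * Real.exp (-(R * |Real.log n - b|))) :=
                mul_le_mul e1 e3 (norm_nonneg _) (by positivity)
            _ = _ := by ring
      _ = G * (∑ n ∈ F, (1 / (n : ℝ)) * (2 * Real.exp (-(R * |Real.log n - a|))) +
            ∑ n ∈ F, (1 / (n : ℝ)) * (2 * Real.exp (-(R * |Real.log n - b|)))) := by
          rw [← Finset.mul_sum, Finset.sum_add_distrib]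
      _ ≤ G * (88 / R + 88 / R) := by
          apply mul_le_mul_of_nonneg_left _ hG
          exact add_le_add (tail_SHP hX hR hRX hy1 (by linarith))
            (tail_SHP hX hR hRX (by linarith) hyh)
      _ = 176 * G / R := by ring
  -- the second part
  have hint : ∀ n : ℕ, Continuous (fun v : ℝ => Real.exp (-(R * |Real.log n - v|))) := by
    intro n
    fun_prop
  have h4 : ∀ n ∈ F, ‖(K n : ℂ) * ex (n * β) - J n‖ ≤
      48 * Real.pi * |β| * X * ∫ v in a..b, Real.exp (-(R * |Real.log n - v|)) := by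
    intro n hn
    have hn1 := (Finset.mem_Icc.1 hn).1
    have hn2 := (Finset.mem_Icc.1 hn).2
    have hn0 : (0:ℝ) < n := by exact_mod_cast hn1
    have hn3 : (n : ℝ) ≤ 3 * X := by exact_mod_cast hn2
    have hc1 : Continuous (fun v : ℝ => ex (n * β) * (k n v : ℂ)) :=
      continuous_const.mul (Complex.continuous_ofReal.comp (hkc n))
    have hc2 : Continuous (fun v : ℝ => ex (β * Real.exp v) * (k n v : ℂ)) :=
      (ex_cont_SHP β).mul (Complex.continuous_ofReal.comp (hkc n))
    have e1 : (K n : ℂ) * ex (n * β) - J n =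
        ∫ v in a..b, (ex (n * β) * (k n v : ℂ) - ex (β * Real.exp v) * (k n v : ℂ)) := by
      rw [intervalIntegral.integral_sub (hc1.intervalIntegrable _ _)
        (hc2.intervalIntegrable _ _), intervalIntegral.integral_const_mul,
        intervalIntegral.integral_ofReal]
      simp only [K, J]
      ring
    rw [e1]
    refine (intervalIntegral.norm_integral_le_integral_norm hab.le).trans ?_
    rw [← intervalIntegral.integral_const_mul]
    refine intervalIntegral.integral_mono_on hab.le ((hc1.sub hc2).norm.intervalIntegrable _ _)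
      ((continuous_const.mul (hint n)).intervalIntegrable _ _) ?_
    intro v hv
    have hv0 : 0 < Real.exp v := Real.exp_pos v
    have hv3 : Real.exp v ≤ 3 * X := by
      have h5 : Real.exp v ≤ Real.exp b := Real.exp_le_exp.2 hv.2
      rw [hb, Real.exp_log (by positivity)] at h5
      linarith
    have hk0 : 0 ≤ k n v := mul_nonneg hR0.le (Real.exp_pos _).le
    have h6 := log_diff hn0 hv0 hn3 hv3
    rw [Real.log_exp, div_le_iff₀ (by positivity : (0 : ℝ) < 3 * X)] at h6
    have h7 : ‖ex (n * β) - ex (β * Real.exp v)‖ ≤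
        2 * Real.pi * (|β| * (|Real.log n - v| * (3 * X))) := by
      refine (ex_sub_SHP _ _).trans ?_
      have h8 : |(n : ℝ) * β - β * Real.exp v| = |β| * |(n : ℝ) - Real.exp v| := by
        rw [← abs_mul]
        congr 1
        ring
      rw [h8]
      exact mul_le_mul_of_nonneg_left (mul_le_mul_of_nonneg_left h6 (abs_nonneg _))
        (by positivity)
    have h9 := kern_SHP (R := R) (s := v - Real.log n) hR0
    have h10 : |v - Real.log n| = |Real.log n - v| := abs_sub_comm _ _
    rw [h10] at h9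
    have h11 : ‖ex (n * β) * (k n v : ℂ) - ex (β * Real.exp v) * (k n v : ℂ)‖ =
        ‖ex (n * β) - ex (β * Real.exp v)‖ * k n v := by
      rw [← sub_mul, norm_mul, Complex.norm_real, Real.norm_of_nonneg hk0]
    rw [h11]
    calc ‖ex (n * β) - ex (β * Real.exp v)‖ * k n v
        ≤ (2 * Real.pi * (|β| * (|Real.log n - v| * (3 * X)))) * k n v :=
          mul_le_mul_of_nonneg_right h7 hk0
      _ = (6 * Real.pi * |β| * X) * (|Real.log n - v| * k n v) := by ring
      _ ≤ (6 * Real.pi * |β| * X) * (8 * Real.exp (-(R * |Real.log n - v|))) :=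
          mul_le_mul_of_nonneg_left h9 (by positivity)
      _ = 48 * Real.pi * |β| * X * Real.exp (-(R * |Real.log n - v|)) := by ring
  have h5 : ∑ n ∈ F, (1 / (n : ℝ)) * ∫ v in a..b, Real.exp (-(R * |Real.log n - v|)) ≤
      44 / R * (2 * h / X) := by
    have e1 : ∑ n ∈ F, (1 / (n : ℝ)) * ∫ v in a..b, Real.exp (-(R * |Real.log n - v|)) =
        ∫ v in a..b, ∑ n ∈ F, (1 / (n : ℝ)) * Real.exp (-(R * |Real.log n - v|)) := by
      rw [intervalIntegral.integral_finsetSum]
      · refine Finset.sum_congr rfl fun n _ => ?_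
        rw [intervalIntegral.integral_const_mul]
      · intro n _
        exact (continuous_const.mul (hint n)).intervalIntegrable _ _
    rw [e1]
    have e2 : ∫ v in a..b, ∑ n ∈ F, (1 / (n : ℝ)) * Real.exp (-(R * |Real.log n - v|)) ≤
        ∫ _v in a..b, (44 / R : ℝ) := by
      refine intervalIntegral.integral_mono_on hab.le
        ((continuous_finsetSum _ fun n _ =>
          continuous_const.mul (hint n)).intervalIntegrable _ _)
        (continuous_const.intervalIntegrable _ _) ?_
      intro v hv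
      have hv3 : Real.exp v ≤ 3 * X := by
        have h5 : Real.exp v ≤ Real.exp b := Real.exp_le_exp.2 hv.2
        rw [hb, Real.exp_log (by positivity)] at h5
        linarith
      have hv1 : (X : ℝ) / 2 ≤ Real.exp v := by
        have h5 : Real.exp a ≤ Real.exp v := Real.exp_le_exp.2 hv.1
        rw [ha, Real.exp_log hy0] at h5
        linarith
      have h6 := tail_SHP hX hR hRX hv1 hv3
      rw [Real.log_exp] at h6
      have h7 : ∑ m ∈ Icc 1 (3 * X), (1 / (m : ℝ)) * (2 * Real.exp (-(R * |Real.log m - v|))) =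
          2 * ∑ n ∈ F, (1 / (n : ℝ)) * Real.exp (-(R * |Real.log n - v|)) := by
        rw [Finset.mul_sum]
        refine Finset.sum_congr rfl fun m _ => ?_
        ring
      rw [h7] at h6
      have h8 : (44 : ℝ) / R = (88 / R) / 2 := by ring
      rw [h8]
      linarith
    refine e2.trans ?_
    rw [intervalIntegral.integral_const, smul_eq_mul, mul_comm]
    exact mul_le_mul_of_nonneg_left hba (by positivity)
  have h6 : ‖∑ m ∈ F, ((g m : ℝ) : ℂ) / m * ((K m : ℂ) * ex (m * β) - J m)‖ ≤
      4224 * Real.pi * (G * (|β| * h)) / R := by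
    refine (norm_sum_le _ _).trans ?_
    calc ∑ n ∈ F, ‖((g n : ℝ) : ℂ) / n * ((K n : ℂ) * ex (n * β) - J n)‖
        ≤ ∑ n ∈ F, (G * (48 * Real.pi * |β| * X)) *
            ((1 / (n : ℝ)) * ∫ v in a..b, Real.exp (-(R * |Real.log n - v|))) := by
          refine Finset.sum_le_sum fun n hn => ?_
          have hn1 := (Finset.mem_Icc.1 hn).1
          have hn0 : (0:ℝ) < n := by exact_mod_cast hn1
          rw [norm_mul, norm_div, Complex.norm_real, Complex.norm_natCast]
          have e1 : ‖g n‖ / (n : ℝ) ≤ G / n := div_le_div_of_nonneg_right (hg n) hn0.le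
          calc ‖g n‖ / (n : ℝ) * ‖(K n : ℂ) * ex (n * β) - J n‖
              ≤ G / n * (48 * Real.pi * |β| * X *
                  ∫ v in a..b, Real.exp (-(R * |Real.log n - v|))) :=
                mul_le_mul e1 (h4 n hn) (norm_nonneg _) (by positivity)
            _ = _ := by ring
      _ = (G * (48 * Real.pi * |β| * X)) * ∑ n ∈ F, (1 / (n : ℝ)) *
            ∫ v in a..b, Real.exp (-(R * |Real.log n - v|)) := by rw [← Finset.mul_sum]
      _ ≤ (G * (48 * Real.pi * |β| * X)) * (44 / R * (2 * h / X)) :=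
          mul_le_mul_of_nonneg_left h5 (by positivity)
      _ = 4224 * Real.pi * (G * (|β| * h)) / R := by
          field_simp
          ring
  have hpi : Real.pi ≤ 4 := Real.pi_le_four
  have h7 : 4224 * Real.pi * (G * (|β| * h)) / R ≤ 20000 * (G * (|β| * h)) / R := by
    apply div_le_div_of_nonneg_right _ hR0.le
    apply mul_le_mul_of_nonneg_right _ (by positivity)
    linarith
  have h8 : 176 * G / R ≤ 20000 * G / R := by
    apply div_le_div_of_nonneg_right _ hR0.le
    apply mul_le_mul_of_nonneg_right _ hG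
    norm_num
  have h9 : 20000 * G * (1 + |β| * h) / R = 20000 * G / R + 20000 * (G * (|β| * h)) / R := by
    ring
  rw [h9]
  linarith

end Pool.Agent.Helper19.SU
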